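import Pool.Agent.F5H.StmtsA

/-!
MP_f5cbfa_nt, squad F5H, row A_FAF.
-/

set_option autoImplicit false

open MeasureTheory Filter Topology

namespace Pool.Agent.F5H.H56

open Pool.Agent.BTL Pool.Agent.F5S Pool.Agent.F5H

/-- integral of a bounded function with support of known volume -/
theorem int_bd {E : Type*} [MeasureSpace E] (f : E → ℝ) (S : Set E) (V B : ℝ)
    (hV : 0 ≤ V) (h0 : ∀ x, 0 ≤ f x) (hB : ∀ x, f x ≤ B) (hS : ∀ x, f x ≠ 0 → x ∈ S)
    (hvol : volume S ≤ ENNReal.ofReal V) (hB0 : 0 ≤ B) :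
    0 ≤ ∫ x, f x ∧ ∫ x, f x ≤ V * B := by
  refine ⟨integral_nonneg h0, ?_⟩
  have h1 : ∫ x, f x = ∫ x in S, f x := by
    refine (setIntegral_eq_integral_of_forall_compl_eq_zero ?_).symm
    intro x hx
    by_contra hne
    exact hx (hS x hne)
  have hfin : volume S < ⊤ := lt_of_le_of_lt hvol ENNReal.ofReal_lt_top
  have h2 : ‖∫ x in S, f x‖ ≤ B * volume.real S :=
    norm_setIntegral_le_of_norm_le_const hfin (fun x _ => by
      rw [Real.norm_eq_abs, abs_of_nonneg (h0 x)]; exact hB x)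
  have h3 : volume.real S ≤ V := by
    unfold Measure.real
    calc (volume S).toReal ≤ (ENNReal.ofReal V).toReal :=
          ENNReal.toReal_mono ENNReal.ofReal_ne_top hvol
      _ = V := ENNReal.toReal_ofReal hV
  rw [h1]
  calc ∫ x in S, f x ≤ ‖∫ x in S, f x‖ := Real.le_norm_self _
    _ ≤ B * volume.real S := h2
    _ ≤ B * V := mul_le_mul_of_nonneg_left h3 hB0
    _ = V * B := mul_comm _ _

/-- volume of a ball of the plane -/
theorem vol2 (x : ℝ × ℝ) (r : ℝ) (hr : 0 ≤ r) :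
    volume (Metric.closedBall x r) = ENNReal.ofReal ((2 * r) ^ 2) := by
  obtain ⟨a, b⟩ := x
  rw [← closedBall_prod_same, Measure.volume_eq_prod, Measure.prod_prod, Real.volume_closedBall,
    Real.volume_closedBall, ← ENNReal.ofReal_mul (by positivity)]
  congr 1
  ring

theorem vol3 (x : ℝ × ℝ × ℝ) (r : ℝ) (hr : 0 ≤ r) :
    volume (Metric.closedBall x r) = ENNReal.ofReal ((2 * r) ^ 3) := by
  obtain ⟨a, b⟩ := x
  rw [← closedBall_prod_same, Measure.volume_eq_prod, Measure.prod_prod, Real.volume_closedBall,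
    vol2 _ _ hr, ← ENNReal.ofReal_mul (by positivity)]
  congr 1
  ring

theorem vol6 (x : R6) (r : ℝ) (hr : 0 ≤ r) :
    volume (Metric.closedBall x r) = ENNReal.ofReal ((2 * r) ^ 6) := by
  obtain ⟨a, b, c⟩ := x
  rw [← closedBall_prod_same, Measure.volume_eq_prod, Measure.prod_prod, vol2 _ _ hr,
    ← closedBall_prod_same, Measure.volume_eq_prod, Measure.prod_prod, vol2 _ _ hr,
    vol2 _ _ hr, ← ENNReal.ofReal_mul (by positivity), ← ENNReal.ofReal_mul (by positivity)]
  congr 1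
  ring

/-- facts on `WC` -/
theorem wc (hC : CLFStmt) {L : ℝ} (hL : 0 < L) {W : R6 → ℝ} (hW : Measurable W)
    (h01 : ∀ c, 0 ≤ W c ∧ W c ≤ 1) :
    Measurable (fun z : R6 × R6 => WC L W z.1 z.2) ∧
    (∀ x y, 0 ≤ WC L W x y ∧ WC L W x y ≤ 64) ∧
    (∀ x y, WC L W x y ≠ 0 → ∃ c, W c ≠ 0 ∧ ‖x - c‖ ≤ L ∧ ‖y - c‖ ≤ L) := by
  obtain ⟨c01, cc, csup, -⟩ := hC L hL
  have hL6 : 0 < L ^ 6 := by positivity
  refine ⟨?_, ?_, ?_⟩
  · have hm : Measurable (fun q : (R6 × R6) × R6 =>
        W q.2 * ((L ^ 6)⁻¹ * (cl6 L q.2 q.1.1 * cl6 L q.2 q.1.2))) := by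
      have h1 : Measurable (fun q : (R6 × R6) × R6 => cl6 L q.2 q.1.1) :=
        cc.measurable.comp (measurable_snd.prodMk (measurable_fst.comp measurable_fst))
      have h2 : Measurable (fun q : (R6 × R6) × R6 => cl6 L q.2 q.1.2) :=
        cc.measurable.comp (measurable_snd.prodMk (measurable_snd.comp measurable_fst))
      exact (hW.comp measurable_snd).mul ((h1.mul h2).const_mul _)
    exact (hm.stronglyMeasurable.integral_prod_right).measurable
  · intro x y
    have h := int_bd (fun c => W c * ((L ^ 6)⁻¹ * (cl6 L c x * cl6 L c y)))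
      (Metric.closedBall x L) ((2 * L) ^ 6) ((L ^ 6)⁻¹) (by positivity) (fun c => by
        have := (h01 c).1; have := (c01 c x).1; have := (c01 c y).1; positivity) (fun c => by
        have a1 := (h01 c); have a2 := (c01 c x); have a3 := (c01 c y)
        have b1 : cl6 L c x * cl6 L c y ≤ 1 := mul_le_one₀ a2.2 a3.1 a3.2
        have b0 : 0 ≤ cl6 L c x * cl6 L c y := mul_nonneg a2.1 a3.1
        have b2 : (L ^ 6)⁻¹ * (cl6 L c x * cl6 L c y) ≤ (L ^ 6)⁻¹ :=
          mul_le_of_le_one_right (by positivity) b1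
        calc W c * ((L ^ 6)⁻¹ * (cl6 L c x * cl6 L c y)) ≤ (L ^ 6)⁻¹ * (cl6 L c x * cl6 L c y) :=
              mul_le_of_le_one_left (by positivity) a1.2
          _ ≤ _ := b2) (fun c hc => by
        have h1 : cl6 L c x ≠ 0 := by
          intro h; apply hc; simp [h]
        have h2 := csup c x h1
        rw [Metric.mem_closedBall, dist_eq_norm, norm_sub_rev]
        exact h2) (vol6 x L hL.le).le (by positivity)
    refine ⟨h.1, ?_⟩
    have h2 := h.2
    have h3 : (2 * L) ^ 6 * (L ^ 6)⁻¹ = 64 := by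
      field_simp
      ring
    rw [h3] at h2
    exact h2
  · intro x y h
    by_contra hcon
    apply h
    unfold WC
    have : ∀ c, W c * ((L ^ 6)⁻¹ * (cl6 L c x * cl6 L c y)) = 0 := by
      intro c
      by_contra hne
      apply hcon
      refine ⟨c, ?_, csup c x ?_, csup c y ?_⟩
      · intro h; apply hne; simp [h]
      · intro h; apply hne; simp [h]
      · intro h; apply hne; simp [h]
    simp [this]

/-- facts on `RV` -/
theorem rv (hK : KAFStmt) (hP : PRFStmt) {R e : ℝ} (hR : 0 < R) (he : 0 < e) (p : ℝ × ℝ) :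
    Measurable (fun z : (ℝ × ℝ × ℝ) × R6 × R6 => RV R e p z.1 z.2.1 z.2.2) ∧
    (∀ A x y, 0 ≤ RV R e p A x y ∧ RV R e p A x y ≤ 4 * e ^ 2) := by
  obtain ⟨k01, kc, ks, -⟩ := hK e he p
  obtain ⟨p01, -, plip, -⟩ := hP R hR
  have hPc : Continuous (PR R) := by
    have : LipschitzWith (Real.toNNReal R⁻¹) (PR R) := by
      refine LipschitzWith.of_dist_le_mul (fun u v => ?_)
      rw [Real.dist_eq, Real.dist_eq, Real.coe_toNNReal _ (by positivity)]
      calc |PR R u - PR R v| ≤ |u - v| / R := plip u v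
        _ = R⁻¹ * |u - v| := by rw [div_eq_mul_inv, mul_comm]
    exact this.continuous
  refine ⟨?_, ?_⟩
  · have hm : Measurable (fun q : ((ℝ × ℝ × ℝ) × R6 × R6) × (ℝ × ℝ) =>
        PR R (q.2.1 - q.2.2) * (KA e p q.1.1 q.2.1 q.1.2.1 * KA e p q.1.1 q.2.2 q.1.2.2)) := by
      have h0 : Continuous (fun q : ((ℝ × ℝ × ℝ) × R6 × R6) × (ℝ × ℝ) => PR R (q.2.1 - q.2.2)) :=
        hPc.comp (by fun_prop)
      have h1 : Continuous (fun q : ((ℝ × ℝ × ℝ) × R6 × R6) × (ℝ × ℝ) =>
          KA e p q.1.1 q.2.1 q.1.2.1) :=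
        kc.comp (g := fun z : (ℝ × ℝ × ℝ) × ℝ × R6 => KA e p z.1 z.2.1 z.2.2)
          (f := fun q : ((ℝ × ℝ × ℝ) × R6 × R6) × (ℝ × ℝ) => (q.1.1, q.2.1, q.1.2.1))
          (by fun_prop)
      have h2 : Continuous (fun q : ((ℝ × ℝ × ℝ) × R6 × R6) × (ℝ × ℝ) =>
          KA e p q.1.1 q.2.2 q.1.2.2) :=
        kc.comp (g := fun z : (ℝ × ℝ × ℝ) × ℝ × R6 => KA e p z.1 z.2.1 z.2.2)
          (f := fun q : ((ℝ × ℝ × ℝ) × R6 × R6) × (ℝ × ℝ) => (q.1.1, q.2.2, q.1.2.2))
          (by fun_prop)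
      exact (h0.mul (h1.mul h2)).measurable
    exact (hm.stronglyMeasurable.integral_prod_right).measurable
  · intro A x y
    have h := int_bd (fun z : ℝ × ℝ => PR R (z.1 - z.2) * (KA e p A z.1 x * KA e p A z.2 y))
      (Metric.closedBall (qf A x.2.2, qf A y.2.2) e) ((2 * e) ^ 2) 1 (by positivity) (fun z => by
        have := (p01 (z.1 - z.2)).1; have := (k01 A z.1 x).1; have := (k01 A z.2 y).1
        positivity) (fun z => by
        have a1 := p01 (z.1 - z.2); have a2 := k01 A z.1 x; have a3 := k01 A z.2 y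
        exact mul_le_one₀ a1.2 (mul_nonneg a2.1 a3.1) (mul_le_one₀ a2.2 a3.1 a3.2)) (fun z hz => by
        have h1 : KA e p A z.1 x ≠ 0 := by intro h; apply hz; simp [h]
        have h2 : KA e p A z.2 y ≠ 0 := by intro h; apply hz; simp [h]
        have h3 := (ks A z.1 x h1).2.2
        have h4 := (ks A z.2 y h2).2.2
        rw [Metric.mem_closedBall, Prod.dist_eq, Real.dist_eq, Real.dist_eq]
        refine max_le ?_ ?_
        · rw [abs_sub_comm]; exact h3.le
        · rw [abs_sub_comm]; exact h4.le) (vol2 _ _ he.le).le zero_le_one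
    refine ⟨h.1, ?_⟩
    have h2 := h.2
    calc RV R e p A x y ≤ (2 * e) ^ 2 * 1 := h2
      _ = 4 * e ^ 2 := by ring

theorem swapM (F : (ℝ × ℝ × ℝ) × R6 × R6 → ℝ) (hF : Measurable F) :
    Measurable (fun q : (R6 × R6) × (ℝ × ℝ × ℝ) => F (q.2, q.1)) :=
  hF.comp (measurable_snd.prodMk measurable_fst)

theorem ffm (X : (ℝ × ℝ × ℝ) → ℝ) (hX : Measurable X) (F : (ℝ × ℝ × ℝ) × R6 × R6 → ℝ)
    (hF : Measurable F) : Measurable (fun z : R6 × R6 => ∫ A, X A * F (A, z)) := by
  have hm : Measurable (fun q : (R6 × R6) × (ℝ × ℝ × ℝ) => X q.2 * F (q.2, q.1)) :=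
    (hX.comp measurable_snd).mul (swapM F hF)
  exact (hm.stronglyMeasurable.integral_prod_right).measurable

/-- A_FAF -/
theorem faf (hK : KAFStmt) (hP : PRFStmt) (hC : CLFStmt) (hX : CHKStmt) : FAFStmt := by
  intro M L R e hM hL hR he p W hW h01
  obtain ⟨wm, wb, ws⟩ := wc hC hL hW h01
  obtain ⟨rm, rb⟩ := rv hK hP hR he p
  obtain ⟨x01, -, xs, xl⟩ := hX M hM
  have fm : Measurable (fun z : (ℝ × ℝ × ℝ) × R6 × R6 => FA L R e p W z.1 z.2.1 z.2.2) := by
    have h1 : Measurable (fun z : (ℝ × ℝ × ℝ) × R6 × R6 => WC L W z.2.1 z.2.2) :=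
      wm.comp measurable_snd
    exact h1.mul rm
  have fb : ∀ A x y, 0 ≤ FA L R e p W A x y ∧ FA L R e p W A x y ≤ 64 * (4 * e ^ 2) := by
    intro A x y
    refine ⟨mul_nonneg (wb x y).1 (rb A x y).1, ?_⟩
    exact mul_le_mul (wb x y).2 (rb A x y).2 (rb A x y).1 (by norm_num)
  have fs : ∀ A x y, FA L R e p W A x y ≠ 0 →
      ∃ c, W c ≠ 0 ∧ ‖x - c‖ ≤ L ∧ ‖y - c‖ ≤ L := by
    intro A x y h
    exact ws x y (left_ne_zero_of_mul h)
  have xc : Continuous (chK M) := by
    have : LipschitzWith (Real.toNNReal (12 * M)) (chK M) := by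
      refine LipschitzWith.of_dist_le_mul (fun u v => ?_)
      rw [Real.dist_eq, dist_eq_norm, Real.coe_toNNReal _ (by positivity)]
      exact xl u v
    exact this.continuous
  refine ⟨fm, fb, fs, ?_, ?_, ?_⟩
  · exact ffm (chK M) xc.measurable (fun z => FA L R e p W z.1 z.2.1 z.2.2) fm
  · intro x y
    have h := int_bd (fun A => chK M A * FA L R e p W A x y)
      (Metric.closedBall (0 : ℝ × ℝ × ℝ) (2 * M)) ((4 * M) ^ 3) (64 * (4 * e ^ 2))
      (by positivity) (fun A => mul_nonneg (x01 A).1 (fb A x y).1) (fun A => by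
        calc chK M A * FA L R e p W A x y ≤ FA L R e p W A x y :=
              mul_le_of_le_one_left (fb A x y).1 (x01 A).2
          _ ≤ _ := (fb A x y).2) (fun A hA => by
        have h1 : chK M A ≠ 0 := left_ne_zero_of_mul hA
        have h2 := KM_abs_le (by linarith) (xs A h1)
        rw [mem_closedBall_zero_iff]
        exact h2) (by rw [vol3 _ _ (by positivity)]; apply le_of_eq; congr 1; ring) (by positivity)
    exact h
  · intro x y h
    by_contra hcon
    apply h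
    unfold FF
    have : ∀ A, chK M A * FA L R e p W A x y = 0 := by
      intro A
      by_contra hne
      exact hcon (fs A x y (right_ne_zero_of_mul hne))
    simp [this]

end Pool.Agent.F5H.H56
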