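import Pool.Agent.F5H.StmtsA

/-!
MP_f5cbfa_nt, squad F5H, row A_GEN.
-/

set_option autoImplicit false

open MeasureTheory Filter Topology

namespace Pool.Agent.F5H.H56

open Pool.Agent.BTL Pool.Agent.F5S Pool.Agent.F5H

theorem qf_bd (A : ℝ × ℝ × ℝ) (u : ℝ × ℝ) : |qf A u| ≤ 4 * ‖A‖ * ‖u‖ ^ 2 := by
  have h1 : |A.1| ≤ ‖A‖ := norm_fst_le A
  have h2 : |A.2.1| ≤ ‖A‖ := (norm_fst_le A.2).trans (norm_snd_le A)
  have h3 : |A.2.2| ≤ ‖A‖ := (norm_snd_le A.2).trans (norm_snd_le A)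
  have h4 : |u.1| ≤ ‖u‖ := norm_fst_le u
  have h5 : |u.2| ≤ ‖u‖ := norm_snd_le u
  have hA : 0 ≤ ‖A‖ := norm_nonneg _
  have hu : 0 ≤ ‖u‖ := norm_nonneg _
  have e1 : |A.1 * u.1 ^ 2| ≤ ‖A‖ * ‖u‖ ^ 2 := by
    rw [abs_mul, abs_pow]
    exact mul_le_mul h1 (pow_le_pow_left₀ (abs_nonneg _) h4 2) (by positivity) hA
  have e2 : |A.2.1 * u.1 * u.2| ≤ ‖A‖ * ‖u‖ ^ 2 := by
    rw [abs_mul, abs_mul, mul_assoc, sq]
    exact mul_le_mul h2 (mul_le_mul h4 h5 (abs_nonneg _) hu) (by positivity) hA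
  have e3 : |A.2.2 * u.2 ^ 2| ≤ ‖A‖ * ‖u‖ ^ 2 := by
    rw [abs_mul, abs_pow]
    exact mul_le_mul h3 (pow_le_pow_left₀ (abs_nonneg _) h5 2) (by positivity) hA
  have e4 : qf A u = A.1 * u.1 ^ 2 + 2 * (A.2.1 * u.1 * u.2) + A.2.2 * u.2 ^ 2 := by
    unfold qf; ring
  rw [e4]
  have t1 := abs_le.1 e1
  have t2 := abs_le.1 e2
  have t3 := abs_le.1 e3
  rw [abs_le]
  constructor <;> nlinarith [t1.1, t1.2, t2.1, t2.2, t3.1, t3.2]

/-- A_GEN -/
theorem gen (hC : CLFStmt) (hG : GGFStmt) : GENStmt := by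
  intro L R e ρ hL hR he hρ p W hW h01 hWs A ν ν' _ _ hν hν'
  obtain ⟨c01, cc, -, -⟩ := hC L hL
  obtain ⟨gm, g01, gs, -, gi⟩ := hG R e hR he p
  obtain ⟨a, ha⟩ : ∃ a : R6 × ℝ → R6 → ℝ, a = fun z x => cl6 L z.1 x * gg R e p A z.2 x :=
    ⟨_, rfl⟩
  have hav : ∀ z x, a z x = cl6 L z.1 x * gg R e p A z.2 x := fun z x => by rw [ha]
  have a01 : ∀ z x, 0 ≤ a z x ∧ a z x ≤ e := by
    intro z x
    rw [hav]
    exact ⟨mul_nonneg (c01 _ _).1 (g01 _ _ _).1,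
      (mul_le_of_le_one_left (g01 _ _ _).1 (c01 _ _).2).trans (g01 _ _ _).2⟩
  have am : Measurable (fun q : (R6 × ℝ) × R6 => a q.1 q.2) := by
    have h1 : Measurable (fun q : (R6 × ℝ) × R6 => cl6 L q.1.1 q.2) :=
      cc.measurable.comp ((measurable_fst.comp measurable_fst).prodMk measurable_snd)
    have h2 : Measurable (fun q : (R6 × ℝ) × R6 => gg R e p A q.1.2 q.2) :=
      gm.comp (measurable_const.prodMk
        ((measurable_snd.comp measurable_fst).prodMk measurable_snd))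
    rw [ha]
    exact h1.mul h2
  obtain ⟨K, hK⟩ : ∃ K : ℝ, K = 4 * ‖A‖ * ρ ^ 2 + R + e := ⟨_, rfl⟩
  have as : ∀ z x, ‖x‖ ≤ ρ → a z x ≠ 0 → |z.2| ≤ K := by
    intro z x hx h
    rw [hav] at h
    have h1 := (gs A z.2 x (right_ne_zero_of_mul h)).2.2
    have h2 := qf_bd A x.2.2
    have h3 : ‖x.2.2‖ ≤ ρ := (norm_snd_le x.2).trans ((norm_snd_le x).trans hx)
    have h4 : ‖x.2.2‖ ^ 2 ≤ ρ ^ 2 := pow_le_pow_left₀ (norm_nonneg _) h3 2
    have h5 : 4 * ‖A‖ * ‖x.2.2‖ ^ 2 ≤ 4 * ‖A‖ * ρ ^ 2 :=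
      mul_le_mul_of_nonneg_left h4 (by positivity)
    have h6 : |z.2| ≤ |qf A x.2.2| + |qf A x.2.2 - z.2| := by
      have := abs_sub_abs_le_abs_sub z.2 (qf A x.2.2)
      rw [abs_sub_comm z.2] at this
      linarith
    rw [hK]
    linarith
  obtain ⟨S, hS⟩ : ∃ S : Set (R6 × ℝ), S = Metric.closedBall (0 : R6) ρ ×ˢ Set.Icc (-K) K :=
    ⟨_, rfl⟩
  have hSm : MeasurableSet S := by
    rw [hS]; exact Metric.isClosed_closedBall.measurableSet.prod measurableSet_Icc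
  have hSf : volume S < ⊤ := by
    have hc : IsCompact S := by
      rw [hS]; exact (isCompact_closedBall (0 : R6) ρ).prod isCompact_Icc
    exact hc.measure_lt_top
  obtain ⟨G, hGd⟩ : ∃ G : R6 × ℝ → R6 × R6 → ℝ, G = fun z w => W z.1 * (a z w.1 * a z w.2) :=
    ⟨_, rfl⟩
  have hGv : ∀ z w, G z w = W z.1 * (a z w.1 * a z w.2) := fun z w => by rw [hGd]
  have hae : ∀ᵐ w ∂(ν.prod ν'), ‖w.1‖ ≤ ρ ∧ ‖w.2‖ ≤ ρ := by
    have h1 : ∀ᵐ w ∂(ν.prod ν'), ‖w.1‖ ≤ ρ := Measure.quasiMeasurePreserving_fst.ae hν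
    have h2 : ∀ᵐ w ∂(ν.prod ν'), ‖w.2‖ ≤ ρ := Measure.quasiMeasurePreserving_snd.ae hν'
    filter_upwards [h1, h2] with w a b using ⟨a, b⟩
  have hGm : Measurable (Function.uncurry G) := by
    have h1 : Measurable (fun q : (R6 × ℝ) × R6 × R6 => W q.1.1) :=
      hW.comp (measurable_fst.comp measurable_fst)
    have h2 : Measurable (fun q : (R6 × ℝ) × R6 × R6 => a q.1 q.2.1) :=
      am.comp (measurable_fst.prodMk (measurable_fst.comp measurable_snd))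
    have h3 : Measurable (fun q : (R6 × ℝ) × R6 × R6 => a q.1 q.2.2) :=
      am.comp (measurable_fst.prodMk (measurable_snd.comp measurable_snd))
    rw [hGd]
    exact h1.mul (h2.mul h3)
  have hGi : Integrable (Function.uncurry G)
      ((volume : Measure (R6 × ℝ)).prod (ν.prod ν')) := by
    have hd : Integrable (fun q : (R6 × ℝ) × R6 × R6 =>
        S.indicator (fun _ => e * e) q.1 * (fun _ : R6 × R6 => (1 : ℝ)) q.2)
        ((volume : Measure (R6 × ℝ)).prod (ν.prod ν')) := by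
      have hi1 : Integrable (S.indicator (fun _ => e * e)) (volume : Measure (R6 × ℝ)) :=
        (integrable_indicator_iff hSm).2 (integrableOn_const (ne_of_lt hSf))
      have hi2 : Integrable (fun _ : R6 × R6 => (1 : ℝ)) (ν.prod ν') := integrable_const (1 : ℝ)
      exact hi1.mul_prod hi2
    refine hd.mono' hGm.aestronglyMeasurable ?_
    have h1 : ∀ᵐ q ∂((volume : Measure (R6 × ℝ)).prod (ν.prod ν')),
        ‖q.2.1‖ ≤ ρ ∧ ‖q.2.2‖ ≤ ρ := Measure.quasiMeasurePreserving_snd.ae hae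
    filter_upwards [h1] with q hq
    have h0 : 0 ≤ G q.1 q.2 := by
      rw [hGv]
      exact mul_nonneg (h01 _).1 (mul_nonneg (a01 _ _).1 (a01 _ _).1)
    have hle : G q.1 q.2 ≤ e * e := by
      rw [hGv]
      calc W q.1.1 * (a q.1 q.2.1 * a q.1 q.2.2) ≤ a q.1 q.2.1 * a q.1 q.2.2 :=
            mul_le_of_le_one_left (mul_nonneg (a01 _ _).1 (a01 _ _).1) (h01 _).2
        _ ≤ e * e := mul_le_mul (a01 _ _).2 (a01 _ _).2 (a01 _ _).1 he.le
    show ‖G q.1 q.2‖ ≤ _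
    rw [Real.norm_eq_abs, abs_of_nonneg h0, mul_one]
    by_cases hz : G q.1 q.2 = 0
    · rw [hz]
      exact Set.indicator_nonneg (fun _ _ => by positivity) _
    · have hz' := hz
      rw [hGv] at hz'
      have hm : q.1 ∈ S := by
        rw [hS]
        refine ⟨?_, ?_⟩
        · rw [mem_closedBall_zero_iff]
          exact hWs _ (left_ne_zero_of_mul hz')
        · have := as q.1 q.2.1 hq.1 (left_ne_zero_of_mul (right_ne_zero_of_mul hz'))
          exact abs_le.1 this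
      rw [Set.indicator_of_mem hm]
      exact hle
  have hin : ∀ z : R6 × ℝ, ∫ w, G z w ∂(ν.prod ν') =
      W z.1 * ((∫ x, cl6 L z.1 x * gg R e p A z.2 x ∂ν) *
        (∫ y, cl6 L z.1 y * gg R e p A z.2 y ∂ν')) := by
    intro z
    rw [hGd]
    simp only
    rw [integral_const_mul, integral_prod_mul (fun x => a z x) (fun y => a z y)]
    rw [ha]
  have hout : ∀ w : R6 × R6, ∫ z, G z w = L ^ 6 * R * FA L R e p W A w.1 w.2 := by
    intro w
    have h1 : ∀ z : R6 × ℝ, G z w = (W z.1 * (cl6 L z.1 w.1 * cl6 L z.1 w.2)) *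
        (gg R e p A z.2 w.1 * gg R e p A z.2 w.2) := by
      intro z
      rw [hGv, hav, hav]
      ring
    simp_rw [h1]
    rw [Measure.volume_eq_prod, integral_prod_mul
      (fun c => W c * (cl6 L c w.1 * cl6 L c w.2))
      (fun σ => gg R e p A σ w.1 * gg R e p A σ w.2), gi A w.1 w.2]
    have h2 : ∫ c, W c * (cl6 L c w.1 * cl6 L c w.2) = L ^ 6 * WC L W w.1 w.2 := by
      unfold WC
      rw [← integral_const_mul]
      congr 1
      funext c
      have : L ^ 6 ≠ 0 := by positivity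
      field_simp
    rw [h2]
    unfold FA
    ring
  constructor
  · have h := hGi.integral_prod_left
    refine h.congr (Eventually.of_forall (fun z => ?_))
    exact hin z
  · calc ∫ z : R6 × ℝ, W z.1 * ((∫ x, cl6 L z.1 x * gg R e p A z.2 x ∂ν) *
          (∫ y, cl6 L z.1 y * gg R e p A z.2 y ∂ν'))
        = ∫ z : R6 × ℝ, ∫ w, G z w ∂(ν.prod ν') := by
          congr 1; funext z; exact (hin z).symm
      _ = ∫ w, ∫ z : R6 × ℝ, G z w ∂(volume : Measure (R6 × ℝ)) ∂(ν.prod ν') :=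
          integral_integral_swap hGi
      _ = ∫ w, L ^ 6 * R * FA L R e p W A w.1 w.2 ∂(ν.prod ν') := by
          congr 1; funext w; exact hout w
      _ = L ^ 6 * R * ∫ z : R6 × R6, FA L R e p W A z.1 z.2 ∂(ν.prod ν') :=
          integral_const_mul _ _

end Pool.Agent.F5H.H56
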